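import Pool.Agent.V1142.PA.Fin

/-!
# Patching over arbitrary number fields

`U` is a set containing almost all primes (the primes at which `π_p` is unramified), `α p` the
eigenvalues of the class `a_{π_p}`, and `K i` (`i` in a set `I`) is a family of number fields in `ℚ̄`
such that every number field `M` meets some `K i` in `ℚ` (`Ample`); for example infinitely many
number fields whose pairwise intersections are `ℚ`.  Nothing is assumed on the degrees, and the fields
need not be Galois or solvable over `ℚ`.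

If for every `i` there is a continuous semisimple representation of `Gal(ℚ̄/K_i)` over `ℚ̄_ℓ` which
corresponds to `π` at the places of degree one of `K_i` above the primes in `U` outside a finite set
`S i`, then there is a continuous semisimple representation of `Gal(ℚ̄/ℚ)` which corresponds to `π_p`
at every `p ≠ ℓ` in `U` such that some `K_i` with `p ∉ S i` has a place with completion `ℚ_p`.
-/

set_option autoImplicit false

namespace Pool.Agent.Results.MP_ef641d_nt.PatchingOverArbitraryFields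

open Pool.Agent.Y800 Pool.Agent.V1142.GR Pool.Agent.V1142.PA

theorem result (n : ℕ) (U : Set ℕ) (hU : {p : ℕ | p.Prime ∧ p ∉ U}.Finite) (α : ℕ → Fin n → ℂ)
    (ℓ : ℕ) [Fact ℓ.Prime] (ι : PadicAlgCl ℓ ≃+* ℂ) :
    (∀ (I : Type) (K : I → Sub), (∀ i, FiniteDimensional ℚ (K i)) → Ample K →
      ∀ S : I → Set ℕ, (∀ i, (S i).Finite) →
        ((∀ i, HasRepDegreeOne (K i) (U \ S i) α ℓ ι) →
          ∃ ρ : GQ →* GL (Fin n) (PadicAlgCl ℓ), Continuous ρ ∧ IsSemisimple ρ ∧
            ∀ p ∈ U, p.Prime → p ≠ ℓ → (∃ i, p ∉ S i ∧ HasLocalDegreeOne (K i) p) →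
              Corresponds ρ p (fun i => ι.symm (α p i))) ∧
        ((∀ p ∈ U, p.Prime → p ≠ ℓ → ∃ i, p ∉ S i ∧ HasLocalDegreeOne (K i) p) →
          ((∀ i, HasRepDegreeOne (K i) (U \ S i) α ℓ ι) ↔ HasRep U α ℓ ι))) ∧
    (∀ K : ℕ → Sub, (∀ i j, i ≠ j → K i ⊓ K j = ⊥) → Ample K) := by
  refine ⟨fun I K hfin hK S hS => ?_, ample_of_pairwise⟩
  have h1 := fun h => exists_patch hU α ℓ ι K hfin hK S hS h
  refine ⟨h1, fun hcov => ⟨fun h => ?_, fun h i => ?_⟩⟩
  · obtain ⟨ρ, h2, h3, h4⟩ := h1 h
    exact ⟨ρ, h2, h3, fun p hp hpp hpℓ => h4 p hp hpp hpℓ (hcov p hp hpp hpℓ)⟩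
  · exact restrict_rep Set.diff_subset α ℓ ι (K i) (hfin i) h

end Pool.Agent.Results.MP_ef641d_nt.PatchingOverArbitraryFields
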