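import Pool.Agent.V1142.GR.Fin

/-!
# Representations modulo infinitely many primes suffice (the theorem of Deligne and Serre for `GL_n`)

`U` is a set containing almost all primes (the primes at which `π_p` is unramified), `α p` the
eigenvalues of the class `a_{π_p}`, `P p` its characteristic polynomial, with coefficients in the
integers of a number field `K` (embedded into `ℂ` by `j`).  For infinitely many primes `ℓ` there is a
semisimple representation modulo `ℓ` attached to the reductions of the `P p` (`ModRep`), and the
conjugates of the traces are bounded outside a set of primes of upper density less than `1 / n ^ 2`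
(`Tight`; this follows from a bound for the mean squares, `MeanSquareBounded`).  Then there is an
Artin representation corresponding to `α p` at all `p` in `U`, and the representation of the problem
exists for all primes `ℓ` and all isomorphisms `ι`; all the `α p i` are roots of unity.
-/

set_option autoImplicit false

namespace Pool.Agent.Results.MP_ef641d_nt.ResidualRepresentationsSuffice

open NumberField Polynomial Pool.Agent.V1142.GR

theorem result (n : ℕ) (hn : 0 < n) (U : Set ℕ) (hU : {p : ℕ | p.Prime ∧ p ∉ U}.Finite)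
    (K : Type) [Field K] [NumberField K] (P : ℕ → (𝓞 K)[X]) (j : K →+* ℂ) (α : ℕ → Fin n → ℂ)
    (hα : ∀ p ∈ U, p.Prime → (P p).map (j.comp (algebraMap (𝓞 K) K)) = ∏ i, (X - C (α p i)))
    (hmod : {ℓ : ℕ | ℓ.Prime ∧ Nonempty (ModRep n K U P ℓ)}.Infinite) :
    (MeanSquareBounded n K U P → Tight n K U P) ∧
    (Tight n K U P → HasArtinRep U α ∧
      (∀ (ℓ : ℕ) [Fact ℓ.Prime] (ι : PadicAlgCl ℓ ≃+* ℂ), HasRep U α ℓ ι) ∧
      ∃ M : ℕ, 0 < M ∧ ∀ p ∈ U, p.Prime → ∀ i, α p i ^ M = 1) := by
  refine ⟨tight_of_mean, fun hP => ?_⟩
  have h := artin_of_mod hn hU hP hmod j α hα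
  refine ⟨h, fun ℓ _ ι => hasRep_of_artin h ℓ ι, ?_⟩
  obtain ⟨R, hR, _, _, hc⟩ := h
  obtain ⟨M, hM, hroot⟩ := roots_of_unity R hR
  exact ⟨M, hM, fun p hp hpp i => hroot p (α p) hpp (hc p hp hpp) i⟩

end Pool.Agent.Results.MP_ef641d_nt.ResidualRepresentationsSuffice
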