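import Pool.Agent.V1183.SV.Main
import Pool.Agent.V1183.SV.Char
import Pool.Agent.V1183.SV.Twist

/-!
# A sparse set of primes decides the existence of the Galois representation

`π` is given by the set `U` of the primes at which it is unramified and by the characteristic polynomials
`α p` of the classes `a_{π_p}`; `ι` is an embedding of `ℚ_ℓ` in `ℂ` (the restriction of an isomorphism of
the algebraic closure of `ℚ_ℓ` with `ℂ`).

There is a sequence `T` of prime numbers, growing as fast as we want and splitting completely in an infinite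
unramified tower `L / k`, such that for all `ℓ`, `n` and `π`: let `ρ : G_ℚ → GL_n(ℚ_ℓ)` be continuous, almost
everywhere unramified, absolutely irreducible on all open subgroups, and let it correspond to `π_p` up to
powers only at `p = T i` for almost all `i`: some power of `ρ(Frob_p)` lies in the class of the same power of
`a_{π_p}`. Then the representation of the problem exists for `π` (with coefficients `ℚ_ℓ`) if and only if
the twist of `ρ` by some character of finite order corresponds to `π_p` at all primes `p ≠ ℓ` in `U`. Moreover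
every other representation which corresponds to `π_p` up to powers at almost all `T i` is a twist of `ρ` by
a character of finite order.
-/

set_option autoImplicit false

namespace Pool.Agent.Results.MP_ef641d_nt.SparseCandidates

open NumberField IntermediateField Module Polynomial

attribute [local instance 10] DivisionRing.toRatAlgebra

/-- the absolute Galois group of `ℚ` -/
abbrev GQ : Type := Gal(AlgebraicClosure ℚ/ℚ)

/-- the ring of all algebraic integers -/
abbrev ZBar : Type := 𝓞 (AlgebraicClosure ℚ)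

/-- `τ` lies in the inertia group at the maximal ideal `P` of the ring of all algebraic integers -/
def Inertia (P : Ideal ZBar) (τ : GQ) : Prop := ∀ x : ZBar, τ • x - x ∈ P

/-- `σ` is a (geometric) Frobenius element at the maximal ideal `P` above the prime number `q`: it induces
the inverse of `x ↦ x ^ q` on the residue field -/
def Frobenius (q : ℕ) (P : Ideal ZBar) (σ : GQ) : Prop := ∀ x : ZBar, x - (σ • x) ^ q ∈ P

/-- `L` is a totally real Galois extension of infinite degree of the real quadratic field `k`, unramified at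
all finite places, and a union of finite extensions of `ℚ` whose degrees are powers of two -/
structure UnramifiedTower (k L : IntermediateField ℚ (AlgebraicClosure ℚ)) : Prop where
  quadratic : finrank ℚ k = 2 ∧ ∃ s ∈ k,
    s ^ 2 = ((17 * 41 * 73 * 89 * 97 * 113 * 137 * 193 * 233 * 241 : ℕ) : AlgebraicClosure ℚ)
  le : k ≤ L
  infinite : ¬ FiniteDimensional ℚ L
  galois : ∀ σ : GQ, (∀ x ∈ k, σ x = x) → ∀ y ∈ L, σ y ∈ L
  unramified : ∀ q : ℕ, q.Prime → ∀ P : Ideal ZBar, P.IsMaximal → (q : ZBar) ∈ P → ∀ τ : GQ,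
    (∀ x ∈ k, τ x = x) → Inertia P τ → ∀ y ∈ L, τ y = y
  real : ∀ (φ : L →+* ℂ) (y : L), (φ y).im = 0
  two : ∀ y ∈ L, ∃ m : ℕ, finrank ℚ ℚ⟮y⟯ = 2 ^ m

/-- the prime number `q` is unramified and splits completely in `L`: all inertia elements and all Frobenius
elements above `q` fix `L` -/
def SplitsCompletely (q : ℕ) (L : IntermediateField ℚ (AlgebraicClosure ℚ)) : Prop :=
  ∀ P : Ideal ZBar, P.IsMaximal → (q : ZBar) ∈ P → ∀ σ : GQ, Inertia P σ ∨ Frobenius q P σ →
    ∀ y ∈ L, σ y = y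

section rep

variable {ℓ : ℕ} [Fact ℓ.Prime] {n : ℕ}

/-- `ρ` is continuous and unramified outside a finite set of primes -/
def AlmostUnramified (ρ : GQ →* GL (Fin n) ℚ_[ℓ]) : Prop :=
  Continuous ρ ∧
  ∃ S : Finset ℕ, ∀ q : ℕ, q.Prime → q ∉ S → ∀ P : Ideal ZBar, P.IsMaximal → (q : ZBar) ∈ P →
    ∀ τ : GQ, Inertia P τ → ρ τ = 1

/-- the matrix of an element -/
noncomputable def matrix (ρ : GQ →* GL (Fin n) ℚ_[ℓ]) (σ : GQ) : Matrix (Fin n) (Fin n) ℚ_[ℓ] := ρ σ

/-- `ρ` is absolutely irreducible on the absolute Galois groups of all number fields `K`: the matrices of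
the elements of `G_K` span the space of all matrices (theorem of Burnside) -/
def StronglyIrreducible (ρ : GQ →* GL (Fin n) ℚ_[ℓ]) : Prop :=
  ∀ K : IntermediateField ℚ (AlgebraicClosure ℚ), FiniteDimensional ℚ K →
    Submodule.span ℚ_[ℓ] {X | ∃ σ : GQ, (∀ x ∈ K, σ x = x) ∧ X = matrix ρ σ} = ⊤

/-- every stable subspace has a stable complement -/
def Semisimple (ρ : GQ →* GL (Fin n) ℚ_[ℓ]) : Prop :=
  ∀ W : Submodule ℚ_[ℓ] (Fin n → ℚ_[ℓ]), (∀ g, ∀ w ∈ W, (matrix ρ g).mulVec w ∈ W) →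
    ∃ W' : Submodule ℚ_[ℓ] (Fin n → ℚ_[ℓ]), (∀ g, ∀ w ∈ W', (matrix ρ g).mulVec w ∈ W') ∧ IsCompl W W'

/-- the character `ε` has finite order: it is trivial on the absolute Galois group of a number field -/
def FiniteOrder (ε : GQ →* ℚ_[ℓ]ˣ) : Prop :=
  ∃ K : IntermediateField ℚ (AlgebraicClosure ℚ), FiniteDimensional ℚ K ∧
    ∀ σ : GQ, (∀ x ∈ K, σ x = x) → ε σ = 1

/-- the twist `σ ↦ ε σ • ρ σ` of `ρ` by the character `ε` -/
noncomputable def twistBy (ρ : GQ →* GL (Fin n) ℚ_[ℓ]) (ε : GQ →* ℚ_[ℓ]ˣ) : GQ →* GL (Fin n) ℚ_[ℓ] :=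
  Pool.Agent.Y802.TS.tw ρ ε 1

/-- `ρ` corresponds to `π_p`: it is unramified at `p` and the geometric Frobenius elements have the
characteristic polynomial `α` of `a_{π_p}` -/
def CorrespondsAt (ι : ℚ_[ℓ] →+* ℂ) (α : ℂ[X]) (p : ℕ) (ρ : GQ →* GL (Fin n) ℚ_[ℓ]) : Prop :=
  ∀ P : Ideal ZBar, P.IsMaximal → (p : ZBar) ∈ P → (∀ τ, Inertia P τ → ρ τ = 1) ∧
    ∀ σ, Frobenius p P σ → (matrix ρ σ).charpoly.map ι = α

/-- `ρ` corresponds to `π_p` for all primes `p ≠ ℓ` in `U` -/
def Corresponds (ι : ℚ_[ℓ] →+* ℂ) (U : Set ℕ) (α : ℕ → ℂ[X]) (ρ : GQ →* GL (Fin n) ℚ_[ℓ]) : Prop :=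
  ∀ p ∈ U, p.Prime → p ≠ ℓ → CorrespondsAt ι (α p) p ρ

/-- the representation of the problem exists, with coefficients in `ℚ_ℓ` -/
def HasRep (n : ℕ) (ι : ℚ_[ℓ] →+* ℂ) (U : Set ℕ) (α : ℕ → ℂ[X]) : Prop :=
  ∃ ρ : GQ →* GL (Fin n) ℚ_[ℓ], Continuous ρ ∧ Semisimple ρ ∧ Corresponds ι U α ρ

/-- for almost all `i` the representation corresponds to `π_p` up to powers at `p = T i`: for each Frobenius
element `σ` some power `ρ(σ) ^ a` has the same characteristic polynomial as `B ^ a`, where `B` has the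
characteristic polynomial `α p` of `a_{π_p}` -/
def CorrespondsUpToPowers (T : ℕ → ℕ) (ι : ℚ_[ℓ] →+* ℂ) (α : ℕ → ℂ[X])
    (ρ : GQ →* GL (Fin n) ℚ_[ℓ]) : Prop :=
  ∃ i₀ : ℕ, ∀ i ≥ i₀, ∀ P : Ideal ZBar, P.IsMaximal → (T i : ZBar) ∈ P → ∀ σ : GQ,
    Frobenius (T i) P σ → ∃ a : ℕ, 0 < a ∧ ∃ B : Matrix (Fin n) (Fin n) ℂ, B.charpoly = α (T i) ∧
      (B ^ a).charpoly = (matrix ρ (σ ^ a)).charpoly.map ι

theorem matrix_pow (ρ : GQ →* GL (Fin n) ℚ_[ℓ]) (σ : GQ) (k : ℕ) :
    matrix ρ (σ ^ k) = matrix ρ σ ^ k := by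
  unfold matrix
  rw [map_pow, Units.val_pow_eq_pow_val]

theorem charpoly_pow {F : Type} [Field F] [CharZero F] (A B : Matrix (Fin n) (Fin n) F)
    (h : A.charpoly = B.charpoly) (k : ℕ) : (A ^ k).charpoly = (B ^ k).charpoly := by
  apply Pool.Agent.TH658.Eq.charpoly_eq_of_traces
  intro l
  rw [← pow_mul, ← pow_mul]
  exact Pool.Agent.V1183.SV.trace_pow_eq _ _ h _

/-- two representations which correspond to the same classes up to powers -/
theorem match_of (ι : ℚ_[ℓ] →+* ℂ) {α : ℂ[X]} {ρ ρ' : GQ →* GL (Fin n) ℚ_[ℓ]} {σ : GQ} {a a' : ℕ}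
    {B B' : Matrix (Fin n) (Fin n) ℂ} (h1 : B.charpoly = α)
    (h2 : (B ^ a).charpoly = (matrix ρ (σ ^ a)).charpoly.map ι) (h1' : B'.charpoly = α)
    (h2' : (B' ^ a').charpoly = (matrix ρ' (σ ^ a')).charpoly.map ι) (k : ℕ) :
    (matrix ρ (σ ^ (a * a' * k))).trace = (matrix ρ' (σ ^ (a * a' * k))).trace := by
  have h3 : ∀ (ρ₁ : GQ →* GL (Fin n) ℚ_[ℓ]) (c d : ℕ) (C : Matrix (Fin n) (Fin n) ℂ),
      (C ^ c).charpoly = (matrix ρ₁ (σ ^ c)).charpoly.map ι →
      (C ^ (c * d)).charpoly = (matrix ρ₁ (σ ^ (c * d))).charpoly.map ι := by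
    intro ρ₁ c d C h
    rw [← Matrix.charpoly_map] at h ⊢
    rw [pow_mul, pow_mul σ, matrix_pow ρ₁ (σ ^ c) d, ← RingHom.mapMatrix_apply, map_pow,
      RingHom.mapMatrix_apply]
    exact charpoly_pow _ _ h d
  have h4 := h3 ρ a a' B h2
  have h5 := h3 ρ' a' a B' h2'
  rw [mul_comm a' a] at h5
  have h6 := charpoly_pow B B' (h1.trans h1'.symm) (a * a')
  have h7 : (matrix ρ (σ ^ (a * a'))).charpoly = (matrix ρ' (σ ^ (a * a'))).charpoly := by
    apply Polynomial.map_injective ι ι.injective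
    rw [← h4, ← h5, h6]
  rw [pow_mul, matrix_pow, matrix_pow ρ']
  exact Pool.Agent.V1183.SV.trace_pow_eq _ _ h7 k

theorem stable_of_span {ρ : GQ →* GL (Fin n) ℚ_[ℓ]} (h : StronglyIrreducible ρ)
    (W : Submodule ℚ_[ℓ] (Fin n → ℚ_[ℓ])) (hW : ∀ g, ∀ w ∈ W, (matrix ρ g).mulVec w ∈ W) :
    W = ⊥ ∨ W = ⊤ := by
  by_cases hb : W = ⊥
  · exact Or.inl hb
  · right
    obtain ⟨w, hw, hw0⟩ := W.ne_bot_iff.1 hb
    have h1 : ∀ M : Matrix (Fin n) (Fin n) ℚ_[ℓ], M.mulVec w ∈ W := by
      intro M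
      have hM : M ∈ Submodule.span ℚ_[ℓ] {X | ∃ σ : GQ,
          (∀ x ∈ (⊥ : IntermediateField ℚ (AlgebraicClosure ℚ)), σ x = x) ∧ X = matrix ρ σ} := by
        rw [h ⊥ inferInstance]
        trivial
      induction hM using Submodule.span_induction with
      | mem X hX =>
        obtain ⟨σ, -, rfl⟩ := hX
        exact hW σ w hw
      | zero =>
        rw [Matrix.zero_mulVec]
        exact W.zero_mem
      | add X Y _ _ hX hY =>
        rw [Matrix.add_mulVec]
        exact W.add_mem hX hY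
      | smul c X _ hX =>
        rw [Matrix.smul_mulVec]
        exact W.smul_mem c hX
    obtain ⟨i, hi⟩ : ∃ i, w i ≠ 0 := by
      by_contra hcon
      push Not at hcon
      exact hw0 (funext hcon)
    rw [eq_top_iff]
    intro v _
    have h2 := h1 (Matrix.of fun a b => if b = i then v a / w i else 0)
    have h3 : (Matrix.of fun a b => if b = i then v a / w i else 0).mulVec w = v := by
      funext a
      rw [Matrix.mulVec, dotProduct]
      simp only [Matrix.of_apply, ite_mul, zero_mul, Finset.sum_ite_eq', Finset.mem_univ, if_true]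
      field_simp
    rwa [h3] at h2

end rep

/-- **Main result.** -/
theorem result (f : ℕ → ℕ) :
    ∃ (T : ℕ → ℕ) (k L : IntermediateField ℚ (AlgebraicClosure ℚ)),
      (∀ i, (T i).Prime ∧ T i < T (i + 1) ∧ f (T i) < T (i + 1)) ∧
      UnramifiedTower k L ∧ (∀ i, SplitsCompletely (T i) L) ∧
      ∀ (ℓ : ℕ) [Fact ℓ.Prime] (ι : ℚ_[ℓ] →+* ℂ) (n : ℕ) (_ : 0 < n) (U : Set ℕ)
        (_ : {p : ℕ | p.Prime ∧ p ∉ U}.Finite) (α : ℕ → ℂ[X]) (ρ : GQ →* GL (Fin n) ℚ_[ℓ]),
        AlmostUnramified ρ → StronglyIrreducible ρ → CorrespondsUpToPowers T ι α ρ →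
        (∀ ρ' : GQ →* GL (Fin n) ℚ_[ℓ], AlmostUnramified ρ' → CorrespondsUpToPowers T ι α ρ' →
          ∃ (Q : GL (Fin n) ℚ_[ℓ]) (ε : GQ →* ℚ_[ℓ]ˣ), FiniteOrder ε ∧
            ∀ σ, ρ' σ = Q * twistBy ρ ε σ * Q⁻¹) ∧
        (HasRep n ι U α ↔ ∃ ε : GQ →* ℚ_[ℓ]ˣ, FiniteOrder ε ∧ Corresponds ι U α (twistBy ρ ε)) := by
  obtain ⟨T, k, L, hT1, hT2, htow, hrep⟩ := Pool.Agent.V1183.SV.main f
  have hTge : ∀ j, j < T j := by
    intro j
    induction j with
    | zero => exact (hT1 0).pos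
    | succ j ih =>
      have := hT2 j
      omega
  refine ⟨T, k, L, fun i => ⟨hT1 i, ?_, ?_⟩, ⟨⟨htow.rank, htow.sqrt⟩, htow.le, htow.inf, htow.galois,
    htow.unr, htow.real, htow.two⟩, ?_, ?_⟩
  · have := hT2 i
    omega
  · have := hT2 i
    have := (hT1 i).pos
    omega
  · intro i P hP hTP σ hσ
    rcases hσ with hσ | hσ
    · exact htow.unrT i P hP hTP σ hσ
    · exact htow.split i P hP hTP σ hσ
  · intro ℓ hℓ ι n hn U hU α ρ hρ hirr hmatch
    have key : ∀ ρ' : GQ →* GL (Fin n) ℚ_[ℓ], AlmostUnramified ρ' →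
        CorrespondsUpToPowers T ι α ρ' →
          ∃ (Q : GL (Fin n) ℚ_[ℓ]) (ε : GQ →* ℚ_[ℓ]ˣ), FiniteOrder ε ∧
            ∀ σ, ρ' σ = Q * twistBy ρ ε σ * Q⁻¹ := by
      intro ρ' hρ' hmatch'
      -- the family
      have hfam : ∀ s : Fin 2, AlmostUnramified (if s = 0 then ρ else ρ') := by
        intro s
        split_ifs
        · exact hρ
        · exact hρ'
      obtain ⟨V, hV, -, h1⟩ := hrep ⊤ isOpen_univ ℓ 2 (fun _ => n)
        (fun s => (if s = 0 then ρ else ρ').comp (Subgroup.subtype ⊤))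
        (fun s => (hfam s).1.comp continuous_subtype_val) (fun s => by
          obtain ⟨S, hS⟩ := (hfam s).2
          exact ⟨S, fun q hq hqS P hP hqP τ _ hτP => hS q hq hqS P hP hqP τ hτP⟩)
      have htr : ∀ g ∈ V, (matrix ρ g).trace = (matrix ρ' g).trace := by
        intro g hg
        have h2 := h1 (∑ b, MvPolynomial.X ⟨0, b, b⟩ - ∑ b, MvPolynomial.X ⟨1, b, b⟩) (by
          obtain ⟨i0, hi0⟩ := hmatch
          obtain ⟨i1, hi1⟩ := hmatch'
          refine ⟨max i0 i1, fun i hi P hP hTP σ _ hσP => ?_⟩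
          obtain ⟨a, ha, B, hB1, hB2⟩ := hi0 i ((le_max_left _ _).trans hi) P hP hTP σ hσP
          obtain ⟨a', ha', B', hB1', hB2'⟩ := hi1 i ((le_max_right _ _).trans hi) P hP hTP σ hσP
          refine ⟨a * a', (Nat.mul_pos ha ha').ne', fun l _ => ?_⟩
          unfold Pool.Agent.V1183.SV.ev
          simp only [map_sub, map_sum, MvPolynomial.eval_X]
          have h3 := match_of ι hB1 hB2 hB1' hB2' l
          rw [sub_eq_zero]
          exact h3) g hg (Subgroup.mem_top g)
        unfold Pool.Agent.V1183.SV.ev at h2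
        simp only [map_sub, map_sum, MvPolynomial.eval_X] at h2
        exact sub_eq_zero.1 h2
      obtain ⟨E, hE, hEn, hEV⟩ := (krullTopology_mem_nhds_one_iff_of_normal ℚ
        (AlgebraicClosure ℚ) _).1 (hV.mem_nhds V.one_mem)
      have hnorm : E.fixingSubgroup.Normal := by
        rw [← IntermediateField.restrictNormalHom_ker]
        infer_instance
      have hspan : Pool.Agent.V1183.SV.Sp ρ E.fixingSubgroup = ⊤ := by
        rw [← hirr E hE]
        unfold Pool.Agent.V1183.SV.Sp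
        congr 1
        ext X
        constructor
        · rintro ⟨σ, hσ, rfl⟩
          exact ⟨σ, (IntermediateField.mem_fixingSubgroup_iff _ _).1 hσ, rfl⟩
        · rintro ⟨σ, hσ, rfl⟩
          exact ⟨σ, (IntermediateField.mem_fixingSubgroup_iff _ _).2 hσ, rfl⟩
      obtain ⟨Q, ε, h2, h3⟩ := Pool.Agent.V1183.SV.exists_char hn (ρ := ρ) (ρ' := ρ')
        (D := E.fixingSubgroup) hspan (fun d hd => htr d (hEV hd))
      refine ⟨Q, ε, ⟨E, hE, fun σ hσ => h2 σ ((IntermediateField.mem_fixingSubgroup_iff _ _).2 hσ)⟩,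
        fun σ => ?_⟩
      apply Units.ext
      rw [h3, Units.val_mul, Units.val_mul]
      unfold twistBy
      rw [Pool.Agent.Y802.TS.tw_val, zpow_one, Matrix.mul_smul, Matrix.smul_mul]
    refine ⟨key, ?_, ?_⟩
    · rintro ⟨ρ', hc, -, hcorr⟩
      have hSfin : {p : ℕ | p.Prime ∧ p ∉ U}.Finite := hU
      have hρ' : AlmostUnramified ρ' := by
        refine ⟨hc, hSfin.toFinset ∪ {ℓ}, fun q hq hqS P hP hqP τ hτ => ?_⟩
        rw [Finset.mem_union, not_or, Set.Finite.mem_toFinset, Finset.mem_singleton] at hqS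
        have hqU : q ∈ U := by
          by_contra hcon
          exact hqS.1 ⟨hq, hcon⟩
        exact (hcorr q hqU hq hqS.2 P hP hqP).1 τ hτ
      have hmatch' : CorrespondsUpToPowers T ι α ρ' := by
        obtain ⟨i0, hi0⟩ : ∃ i0, ∀ i ≥ i0, T i ∈ U ∧ T i ≠ ℓ := by
          obtain ⟨M, hM⟩ := (hSfin.insert ℓ).bddAbove
          refine ⟨M + 1, fun i hi => ?_⟩
          have h1 := hTge i
          constructor
          · by_contra hcon
            have := hM (Set.mem_insert_of_mem ℓ (show T i ∈ {p : ℕ | p.Prime ∧ p ∉ U} from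
              ⟨hT1 i, hcon⟩))
            omega
          · rintro h
            have := hM (Set.mem_insert ℓ _)
            omega
        obtain ⟨i1, hi1⟩ := hmatch
        refine ⟨max i0 i1, fun i hi P hP hTP σ hσP => ⟨1, one_pos, ?_⟩⟩
        obtain ⟨h1, h2⟩ := hi0 i ((le_max_left _ _).trans hi)
        refine ⟨(matrix ρ' σ).map ι, ?_, ?_⟩
        · rw [Matrix.charpoly_map]
          exact (hcorr (T i) h1 (hT1 i) h2 P hP hTP).2 σ hσP
        · rw [pow_one, pow_one, Matrix.charpoly_map]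
      obtain ⟨Q, ε, hε, h1⟩ := key ρ' hρ' hmatch'
      refine ⟨ε, hε, fun p hp hpp hpℓ P hP hpP => ?_⟩
      obtain ⟨h2, h3⟩ := hcorr p hp hpp hpℓ P hP hpP
      constructor
      · intro τ hτ
        have h4 := h2 τ hτ
        rw [h1] at h4
        have h5 : twistBy ρ ε τ = Q⁻¹ * (Q * twistBy ρ ε τ * Q⁻¹) * Q := by group
        rw [h5, h4]
        group
      · intro σ hσ
        rw [← h3 σ hσ]
        congr 1
        unfold matrix
        rw [h1, Units.val_mul, Units.val_mul, Matrix.coe_units_inv]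
        exact (Matrix.charpoly_units_conj Q _).symm
    · rintro ⟨ε, ⟨K, hK, hε⟩, hcorr⟩
      refine ⟨twistBy ρ ε, ?_, ?_, hcorr⟩
      · apply continuous_of_continuousAt_one
        have h1 : (twistBy ρ ε : GQ → GL (Fin n) ℚ_[ℓ]) =ᶠ[nhds 1] ρ := by
          filter_upwards [K.fixingSubgroup_isOpen.mem_nhds K.fixingSubgroup.one_mem] with σ hσ
          have h2 : ε σ = 1 := hε σ ((IntermediateField.mem_fixingSubgroup_iff _ _).1 hσ)
          apply Units.ext
          unfold twistBy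
          rw [Pool.Agent.Y802.TS.tw_val, h2, one_zpow, Units.val_one, one_smul]
        exact (hρ.1.continuousAt).congr h1.symm
      · intro W hW
        have hW' : ∀ g, ∀ w ∈ W, (matrix ρ g).mulVec w ∈ W := by
          intro g w hw
          have h1 := hW g w hw
          unfold matrix twistBy at h1
          rw [Pool.Agent.Y802.TS.tw_val, zpow_one, Matrix.smul_mulVec] at h1
          exact (W.smul_mem_iff (ε g).ne_zero).1 h1
        rcases stable_of_span hirr W hW' with h | h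
        · exact ⟨⊤, fun _ _ _ => trivial, by rw [h]; exact isCompl_bot_top⟩
        · exact ⟨⊥, fun g w hw => by
            rw [Submodule.mem_bot] at hw ⊢
            rw [hw, Matrix.mulVec_zero], by rw [h]; exact isCompl_top_bot⟩

end Pool.Agent.Results.MP_ef641d_nt.SparseCandidates
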