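import Pool.Agent.V1142.GR.Mean

/-!
# Two primes suffice for systems of Artin type

`U` is a set containing almost all primes (the primes at which `π_p` is unramified), `α p` the
eigenvalues of the class `a_{π_p}`.  `HasRep U α ℓ ι`: the representation of the problem exists for the
prime `ℓ` and the isomorphism `ι` of the algebraic closure of `ℚ_ℓ` with `ℂ`.

* bounded mean squares of the conjugates of the (integral) traces imply `FewTraces`;
* if `FewTraces` holds, and the representation exists for one pair `(ℓ, ι)`, then there is an Artin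
  representation corresponding to `α p` for all `p ≠ ℓ` in `U`; if it exists for two different primes
  `ℓ₁ ≠ ℓ₂` and some isomorphisms, then there is an Artin representation corresponding to `α p` for all
  `p` in `U`, the representation of the problem exists for all primes `ℓ` and all `ι`, and all the
  `α p i` are roots of unity of bounded order.
-/

set_option autoImplicit false

namespace Pool.Agent.Results.MP_ef641d_nt.TwoPrimesSuffice

open Pool.Agent.V1142.GR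

theorem result (n : ℕ) (U : Set ℕ) (hU : {p : ℕ | p.Prime ∧ p ∉ U}.Finite) (α : ℕ → Fin n → ℂ) :
    (BoundedMeanSquare U α → FewTraces α) ∧
    (FewTraces α →
      (∀ (ℓ : ℕ) [Fact ℓ.Prime] (ι : PadicAlgCl ℓ ≃+* ℂ), HasRep U α ℓ ι →
        HasArtinRep (U \ {ℓ}) α ∧
        ∀ (ℓ' : ℕ) [Fact ℓ'.Prime] (ι' : PadicAlgCl ℓ' ≃+* ℂ), HasRep (U \ {ℓ}) α ℓ' ι') ∧
      (∀ (ℓ₁ ℓ₂ : ℕ) [Fact ℓ₁.Prime] [Fact ℓ₂.Prime] (ι₁ : PadicAlgCl ℓ₁ ≃+* ℂ)
        (ι₂ : PadicAlgCl ℓ₂ ≃+* ℂ), ℓ₁ ≠ ℓ₂ → HasRep U α ℓ₁ ι₁ → HasRep U α ℓ₂ ι₂ →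
        HasArtinRep U α ∧
        (∀ (ℓ : ℕ) [Fact ℓ.Prime] (ι : PadicAlgCl ℓ ≃+* ℂ), HasRep U α ℓ ι) ∧
        ∃ M : ℕ, 0 < M ∧ ∀ p ∈ U, p.Prime → ∀ i, α p i ^ M = 1)) := by
  refine ⟨few_of_mean hU, fun hα => ⟨?_, ?_⟩⟩
  · intro ℓ _ ι h
    obtain ⟨R, hR, hc⟩ := one_prime hU hα h
    have h1 : HasArtinRep (U \ {ℓ}) α :=
      artin_of R hR fun p hp hpp => hc p hp.1 hpp hp.2
    exact ⟨h1, fun ℓ' _ ι' => hasRep_of_artin h1 ℓ' ι'⟩
  · intro ℓ₁ ℓ₂ _ _ ι₁ ι₂ hne h₁ h₂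
    have h := two_primes hU hα hne h₁ h₂
    refine ⟨h, fun ℓ _ ι => hasRep_of_artin h ℓ ι, ?_⟩
    obtain ⟨R, hR, _, _, hc⟩ := h
    obtain ⟨M, hM, hroot⟩ := roots_of_unity R hR
    exact ⟨M, hM, fun p hp hpp i => hroot p (α p) hpp (hc p hp hpp) i⟩

end Pool.Agent.Results.MP_ef641d_nt.TwoPrimesSuffice
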